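import Pool.Agent.X280.ED.Real

/-!
# L-functions of `GSp(2n)` on the edge of absolute convergence: almost periodicity and limit law

Let `π` be an automorphic representation of `GSp(2n)`, unramified outside `S`, and `ρ` a representation of
the L-group, of degree `r`.  In general nothing is known about a continuation of `L_S(s, π, ρ)` to the left
of the half plane `Re s > 1 + c` of absolute convergence, where `|α| ≤ p^c` for the eigenvalues `α` of
`ρ(A_p)` (`c = 0` for tempered `π`).  We describe the behaviour of all these functions on the edge line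
`Re s = 1 + c` itself, and of finitely many of them at the same time (arbitrary `π`, `ρ` and twists by
Dirichlet characters): the boundary values of `log L` exist, they are almost periodic in the sense of
Stepanov, and they have a joint asymptotic distribution, the law of the random Euler products in which the
numbers `p^{-it}` are replaced by independent points of the unit circle; the mean value of every
continuous function which grows at most like `exp(∑ κ_i |log L_i|)`, `∑ κ_i r_i < 1`, converges, in
particular the mean value of `L^k` on the edge line is one for every complex `k` with `|k| r < 1`.  All this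
is uniform in the position of the interval over which the mean value is taken.

`α p j`, `j < r`, are the eigenvalues of `ρ(A_p)` (times `χ(p)`), `A_p` the Satake class, for `p ∉ S`, and
`0` for `p ∈ S`.  `logLf α s` is the logarithm of the Euler product `∏_p ∏_j (1 - α_j(p) p^{-s})⁻¹`, the sum
of the principal values.  `logEPc c α z u` is the logarithm of the Euler product over the primes `p ≤ z` at
a point of the line `Re s = 1 + c`, with `u p` in the place of `p^{-it}`.  `PT` is the law of independent
uniformly distributed points `θ p` of `ℝ/ℤ`, and `AddCircle.toCircle (θ p) = exp(2πi θ p)`.  `Mean f m` says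
that `T⁻¹ ∫_a^{a+T} f → m` for `T → ∞`, uniformly in `a`.
-/

set_option autoImplicit false

namespace Pool.Agent.Results.MP_eea520_nt.EdgeDistribution

open MeasureTheory Filter Topology Pool.Agent.X280.EB Pool.Agent.X280.ED

/-- There are numbers `D z`, `D z → 0` for `z → ∞`, such that for all finite families of systems `α i` of
rank `r i` with `|α i p j| ≤ p^{c i}`, `c i` real, there are functions `g i` on the line and random
variables `X i` with the following properties.
1. `log L(α i, 1 + c i + ε + it) → g i t` for almost all `t`; the mean square over any interval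
   `[τ, τ + 1]` of the difference of `g i` and the logarithm of the Euler product over the primes `p ≤ z`
   is at most `(r i)² D z`, and the same holds for the mean square of the difference of `X i` and the
   logarithm of the random Euler product over the primes `p ≤ z`.
2. The functions `g i` are almost periodic in the sense of Stepanov, with common almost periods.
3. For all `κ i ≥ 0` with `∑ κ i r i < 1` and all continuous functions `Φ` with
   `|Φ y| ≤ A exp(∑ κ i |y i|)` the mean value of `Φ(g)` over `[a, a + T]` tends to the expectation of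
   `Φ(X)`, uniformly in `a`.
4. If `|k| r i < 1`, then the mean value of `L^k = exp(k g i)` over `[a, a + T]` tends to `1`, uniformly
   in `a`. -/
theorem result : ∃ D : ℕ → ℝ, Tendsto D atTop (𝓝 0) ∧
    ∀ (ι : Type) [Fintype ι] (c : ι → ℝ) (r : ι → ℕ) (α : ∀ i, ℕ → Fin (r i) → ℂ),
      (∀ i, ∀ p : ℕ, p.Prime → ∀ j, ‖α i p j‖ ≤ (p : ℝ) ^ c i) →
      ∃ (g : ι → ℝ → ℂ) (X : ι → (ℕ → UnitAddCircle) → ℂ),
        (∀ i, Measurable (g i) ∧ Measurable (X i) ∧
          (∀ᵐ t : ℝ, Tendsto (fun ε : ℝ => logLf (α i) (1 + c i + ε + t * Complex.I)) (𝓝[>] 0)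
            (𝓝 (g i t))) ∧
          (∀ (z : ℕ) (τ : ℝ), ∫⁻ t in Set.Icc τ (τ + 1), ENNReal.ofReal
            (‖g i t - logEPc (c i) (α i) z (fun p => (p : ℂ) ^ (-(t * Complex.I)))‖ ^ 2) ≤
              ENNReal.ofReal (r i ^ 2 * D z)) ∧
          ∀ z : ℕ, ∫⁻ θ, ENNReal.ofReal
            (‖X i θ - logEPc (c i) (α i) z (fun p => (AddCircle.toCircle (θ p) : ℂ))‖ ^ 2) ∂PT ≤
              ENNReal.ofReal (r i ^ 2 * D z)) ∧
        (∀ η : ℝ, 0 < η → ∃ l : ℝ, 0 < l ∧ ∀ a : ℝ, ∃ τ ∈ Set.Icc a (a + l), ∀ (i : ι) (b : ℝ),
          ∫⁻ t in Set.Icc b (b + 1), ENNReal.ofReal (‖g i (t + τ) - g i t‖ ^ 2) ≤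
            ENNReal.ofReal η) ∧
        (∀ (κ : ι → ℝ) (A : ℝ) (Φ : (ι → ℂ) → ℂ), (∀ i, 0 ≤ κ i) → ∑ i, κ i * r i < 1 →
          Continuous Φ → (∀ y, ‖Φ y‖ ≤ A * Real.exp (∑ i, κ i * ‖y i‖)) →
          (∀ a b : ℝ, IntervalIntegrable (fun t => Φ (fun i => g i t)) volume a b) ∧
          Integrable (fun θ => Φ (fun i => X i θ)) PT ∧
          Mean (fun t => Φ (fun i => g i t)) (∫ θ, Φ (fun i => X i θ) ∂PT)) ∧
        ∀ (i : ι) (k : ℂ), ‖k‖ * r i < 1 → Mean (fun t => Complex.exp (k * g i t)) 1 :=
  edge_law_c

end Pool.Agent.Results.MP_eea520_nt.EdgeDistribution
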