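import Pool.Agent.X22.HE

/-!
# Odd representations of the L-group and hyperelliptic curves of genus `g` (for `g = 2`: `GSp (4)`) with all coefficients in arbitrarily thin families:
square-root cancellation at all heights and with all twists

Nothing is used besides Mathlib in the statement.
-/

set_option autoImplicit false

namespace Pool.Agent.Results.MP_eea520_nt.FewDigitGenusTwo

open Finset Polynomial

/-- The number of the points of the smooth projective curve `Y ^ 2 = h (X)`, `deg h` odd, over the extension of degree `j` of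
the finite field `k` (the field of the elements of the algebraic closure of `k` which are
fixed by the `j`-th power of the Frobenius of `k`): the affine points, and one point at infinity. -/
noncomputable def pointCount (k : Type) [Field k] (h : k[X]) (j : ℕ) : ℕ :=
  Nat.card {P : AlgebraicClosure k × AlgebraicClosure k //
    P.1 ^ (Nat.card k ^ j) = P.1 ∧ P.2 ^ (Nat.card k ^ j) = P.2 ∧ P.2 ^ 2 = aeval P.1 h} + 1

/-- The polynomial `X ^ n + ∑ v_j X ^ j`. -/
noncomputable def poly (R : Type) [CommRing R] {n : ℕ} (v : Fin n → R) : R[X] := X ^ n + ∑ j, C (v j) * X ^ (j : ℕ)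

/-- The coefficients `c i` of `L(T) = (1 - T) (1 - q T) exp (∑ N j T ^ j / j) = exp (∑ t j T ^ j / j)`, where
`t j = N j - 1 - q ^ j`: `c 0 = 1` and `(i + 1) c (i + 1) = ∑ j ≤ i, t (j + 1) c (i - j)`. -/
noncomputable def coeffL (t : ℕ → ℝ) : ℕ → ℝ
  | 0 => 1
  | i + 1 => (∑ j : Fin (i + 1), t (j + 1) * coeffL t (i - j)) / (i + 1)

/-- The coefficient `a_i` of the normalised `L`-polynomial `L_p(p ^ (-1 / 2) T)` at `p` of the curve `Y ^ 2 = X ^ n + ∑ m_j X ^ j`. -/
noncomputable def a {n : ℕ} (m : Fin n → ℕ) (p i : ℕ) : ℝ :=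
  if hp : p.Prime then
    haveI : Fact p.Prime := ⟨hp⟩
    coeffL (fun j => (pointCount (ZMod p) (poly (ZMod p) (fun l => (m l : ZMod p))) j : ℝ) - 1 - (p : ℝ) ^ j) i / Real.sqrt p ^ i
  else 0

open Classical in
/-- The partial sum `∑ w (p) Φ (a_1, ..., a_g) (log p) p ^ (- i τ)` over the odd primes `p ≤ x` modulo which the polynomial `X ^ (2 g + 1) + ∑ m_j X ^ j` has no multiple
roots; then the curve `Y ^ 2 = X ^ (2 g + 1) + ∑ m_j X ^ j` has good reduction at `p`. -/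
noncomputable def partialSum {g : ℕ} (m : Fin (2 * g + 1) → ℕ) (w : ℕ → ℂ) (Φ : (Fin g → ℝ) → ℝ) (τ : ℝ) (x : ℕ) : ℂ :=
  ∑ p ∈ (range (x + 1)).filter (fun p => (p.Prime ∧ p ≠ 2) ∧ (poly (ZMod p) (fun l => (m l : ZMod p))).Separable),
    w p * ((Φ (fun i => a m p (i + 1)) * Real.log p : ℝ) : ℂ) * Complex.exp (((-(τ * Real.log p) : ℝ) : ℂ) * Complex.I)

/-- The digit number `i` (counted from the right, beginning with `0`) of `n` in base `b`. -/
def digit (b i n : ℕ) : ℕ := n / b ^ i % b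

/-- The number which arises from the number `N` with at most `K` digits in base `b`, if for every `i ∈ S`
the digit number `i` is replaced by `f i`. -/
def change (b K N : ℕ) (f : ℕ → ℕ) (S : Finset ℕ) : ℕ :=
  ∑ i ∈ range K, (if i ∈ S then f i else digit b i N) * b ^ i

open Classical in
/-- The number of the choices of `s l` of `K l` positions for all `l < d` for which the vector of the numbers obtained by
changing the digits of the `N l` at the chosen positions (according to `f l`) does not have the property `E`. -/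
noncomputable def exceptions {d : ℕ} (b : ℕ) (K s N : Fin d → ℕ) (f : Fin d → ℕ → ℕ) (E : (Fin d → ℕ) → Prop) : ℕ :=
  ((Fintype.piFinset (fun l => powersetCard (s l) (range (K l)))).filter
    (fun S => ¬ E (fun l => change b (K l) (N l) (f l) (S l)))).card

open Pool.Agent.X22.ND (op mem_op mzc_law absorb hp norm_hp mean_mono mean_zmod cardop_le)
open Pool.Agent.X22.HE
open Pool.Agent.TH894.NE (mean mean_mul mean_const)

lemma coeffL_eq (t : ℕ → ℝ) (i : ℕ) : coeffL t i = cL t i := by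
  induction i using Nat.strong_induction_on with
  | _ i ih =>
    cases i with
    | zero => rw [coeffL, cL]
    | succ i =>
      rw [coeffL, cL]
      congr 1
      exact Finset.sum_congr rfl fun j _ => by rw [ih (i - j) (by omega)]

lemma a_eq (p : ℕ) (hp' : p.Prime) {n : ℕ} (m : Fin n → ℕ) (i : ℕ) : haveI : Fact p.Prime := ⟨hp'⟩
    a m p i = az p (fun l => (m l : ZMod p)) i := by
  unfold a az
  rw [dif_pos hp', coeffL_eq]
  rfl

open Classical in
/-- the value modulo `p` -/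
noncomputable def vz (p : ℕ) (hp' : p.Prime) {g : ℕ} (Φ : (Fin g → ℝ) → ℝ) (v : Fin (2 * g + 1) → ZMod p) : ℝ :=
  haveI : Fact p.Prime := ⟨hp'⟩
  if (F (ZMod p) v).Separable then Φ (fun i => az p v (i + 1)) else 0

open Classical in
/-- the value at `m` -/
noncomputable def vm (p : ℕ) {g : ℕ} (Φ : (Fin g → ℝ) → ℝ) (m : Fin (2 * g + 1) → ℕ) : ℝ :=
  if (poly (ZMod p) (fun l => (m l : ZMod p))).Separable then Φ (fun i => a m p (i + 1)) else 0

lemma vm_eq (p : ℕ) (hp' : p.Prime) {g : ℕ} (Φ : (Fin g → ℝ) → ℝ) (m : Fin (2 * g + 1) → ℕ) :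
    vm p Φ m = vz p hp' Φ (fun l => (m l : ZMod p)) := by
  unfold vm vz
  simp only [a_eq p hp' m]
  rfl

lemma vm_abs (p : ℕ) {g : ℕ} (Φ : (Fin g → ℝ) → ℝ) (hΦ : ∀ v, |Φ v| ≤ 1) (m : Fin (2 * g + 1) → ℕ) : |vm p Φ m| ≤ 1 := by
  unfold vm
  split_ifs
  · exact hΦ _
  · simp

lemma vm_mod (p : ℕ) (hp' : p.Prime) {g : ℕ} (Φ : (Fin g → ℝ) → ℝ) (m : Fin (2 * g + 1) → ℕ) : vm p Φ m = vm p Φ (fun i => m i % p) := by
  rw [vm_eq p hp', vm_eq p hp']
  simp only [ZMod.natCast_mod]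

lemma sum_vz (p : ℕ) (hp' : p.Prime) (h2 : p ≠ 2) {g : ℕ} (Φ : (Fin g → ℝ) → ℝ)
    (hodd : ∀ v : Fin g → ℝ, Φ (fun i => (-1) ^ ((i : ℕ) + 1) * v i) = -Φ v) : haveI : Fact p.Prime := ⟨hp'⟩
    ∑ v : Fin (2 * g + 1) → ZMod p, vz p hp' Φ v = 0 := by
  have hf : Fact p.Prime := ⟨hp'⟩
  have h3 : ringChar (ZMod p) ≠ 2 := by
    rw [ZMod.ringChar_zmod_n]
    exact h2
  obtain ⟨D, hD⟩ : ∃ D : ZMod p, quadraticChar (ZMod p) D = -1 := quadraticChar_exists_neg_one h3
  have hD0 : D ≠ 0 := by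
    rintro rfl
    rw [quadraticChar_zero] at hD
    omega
  obtain ⟨σ, hσ⟩ : ∃ σ : (Fin (2 * g + 1) → ZMod p) ≃ (Fin (2 * g + 1) → ZMod p), ∀ v, σ v = fun l : Fin (2 * g + 1) => D ^ (2 * g + 1 - (l : ℕ)) * v l :=
    ⟨Equiv.piCongrRight (fun l => Equiv.mulLeft₀ (D ^ (2 * g + 1 - (l : ℕ))) (pow_ne_zero _ hD0)), fun v => rfl⟩
  have h1 : ∀ v, vz p hp' Φ (σ v) = -vz p hp' Φ v := by
    intro v
    have e1 : (F (ZMod p) (σ v)).Separable ↔ (F (ZMod p) v).Separable := by
      rw [hσ, ← F_scale]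
      refine separable_scale (ZMod p) _ ?_ hD0
      intro h0
      have := F_natDegree (ZMod p) v
      rw [h0, natDegree_zero] at this
      omega
    unfold vz
    by_cases hs : (F (ZMod p) v).Separable
    · rw [if_pos hs, if_pos (e1.2 hs), ← hodd]
      congr 1
      funext i
      rw [hσ, az_twist p h2 v D hD]
    · rw [if_neg hs, if_neg (fun h => hs (e1.1 h)), neg_zero]
  have h4 : ∑ v : Fin (2 * g + 1) → ZMod p, vz p hp' Φ v = -∑ v : Fin (2 * g + 1) → ZMod p, vz p hp' Φ v := by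
    calc ∑ v : Fin (2 * g + 1) → ZMod p, vz p hp' Φ v = ∑ v : Fin (2 * g + 1) → ZMod p, vz p hp' Φ (σ v) := (Equiv.sum_comp σ _).symm
      _ = ∑ v : Fin (2 * g + 1) → ZMod p, -vz p hp' Φ v := sum_congr rfl (fun v _ => h1 v)
      _ = _ := sum_neg_distrib _
  linarith

lemma mean_vm (p : ℕ) (hp' : p.Prime) (h2 : p ≠ 2) {g : ℕ} (Φ : (Fin g → ℝ) → ℝ)
    (hodd : ∀ v : Fin g → ℝ, Φ (fun i => (-1) ^ ((i : ℕ) + 1) * v i) = -Φ v) :
    mean (2 * g + 1) p (fun m => vm p Φ m) = 0 := by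
  have hf : Fact p.Prime := ⟨hp'⟩
  have h1 := mean_zmod (2 * g + 1) p hp' (fun v => vz p hp' Φ v)
  rw [sum_vz p hp' h2 Φ hodd, zero_div] at h1
  rw [← h1]
  congr 1
  funext m
  exact vm_eq p hp' Φ m

/-- **Odd class functions on the L-group for almost all curves of genus `g` in thin families.** Let a base `b ≥ 2`, integers `g ≥ 0`, `A ≥ 0` and `δ > 0` be
given. There are `c > 0` and `y₀` such that for all integers `s l`, `K l` (`l ≤ 2 g`), `y` with `2 s l ≤ K l` and `y ≥ y₀` the following holds.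

Let `0 ≤ N l < b ^ K l` be arbitrary integers, prescribe for every position `j` a digit `f l j` different from the digit of
`N l` in base `b`, and let `W x` be for every `x` any set of at most `x ^ A` pairs `(w, Φ)` of a complex function `w` with `|w (p)| ≤ 1` on the primes
and of a function `Φ` on `ℝ ^ g` with `|Φ| ≤ 1` which is odd, `Φ (-a_1, a_2, -a_3, ...) = -Φ (a_1, a_2, a_3, ...)`.
If one chooses `s l` of the `K l` positions and replaces the digits of `N l` at these positions, then for all but at most a proportion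
`1 / y ^ A` of the choices the curve `Y ^ 2 = X ^ (2 g + 1) + ∑ m_l X ^ l` of genus `g` with the numbers `m l`
obtained has the following property: for all integers `x` with `y ≤ x ≤ exp (c s l)` for all `l`, all `(w, Φ) ∈ W x` and all real `τ` with `|τ| ≤ x ^ A`,
`|∑ w (p) Φ (a_1, ..., a_g) (log p) p ^ (-i τ)| ≤ x ^ (1 / 2 + δ)`, the sum running over the odd primes `p ≤ x` modulo which
the polynomial has no multiple roots, and `a_1, ..., a_g` are the coefficients of the normalised `L`-polynomial at `p`, which determines the Frobenius conjugacy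
class in `USp (2 g)`. -/
theorem result (b g : ℕ) (hb : 2 ≤ b) (δ : ℝ) (hδ : 0 < δ) (A : ℕ) :
    ∃ c : ℝ, 0 < c ∧ ∃ y₀ : ℕ,
    ∀ (K s : Fin (2 * g + 1) → ℕ) (y : ℕ), (∀ l, 2 * s l ≤ K l) → y₀ ≤ y →
    ∀ N : Fin (2 * g + 1) → ℕ, (∀ l, N l < b ^ K l) → ∀ f : Fin (2 * g + 1) → ℕ → ℕ, (∀ l j, f l j < b ∧ f l j ≠ digit b j (N l)) →
    ∀ (W : ℕ → Finset ((ℕ → ℂ) × ((Fin g → ℝ) → ℝ))), (∀ x, ∀ q ∈ W x, (∀ p, ‖q.1 p‖ ≤ 1) ∧ (∀ v, |q.2 v| ≤ 1) ∧
      ∀ v : Fin g → ℝ, q.2 (fun i => (-1) ^ ((i : ℕ) + 1) * v i) = -q.2 v) → (∀ x, (W x).card ≤ x ^ A) →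
      (exceptions b K s N f (fun m => ∀ x : ℕ, y ≤ x → (∀ l, (x : ℝ) ≤ Real.exp (c * s l)) → ∀ q ∈ W x, ∀ τ : ℝ, |τ| ≤ (x : ℝ) ^ A →
          ‖partialSum m q.1 q.2 τ x‖ ≤ (x : ℝ) ^ (1 / 2 + δ)) : ℝ) ≤
        1 / (y : ℝ) ^ A * ∏ l, ((K l).choose (s l) : ℝ) := by
  classical
  obtain ⟨c, hc, y₀, h⟩ := mzc_law b (2 * g + 1) hb (by omega) (δ / 2) (by positivity) A A A
  obtain ⟨x₁, hx₁⟩ := absorb 1 (δ / 2) (by positivity) (by positivity)
  refine ⟨c, hc, y₀ + x₁ + 2, fun K s y hrK hy N hN f hf W hw hW => ?_⟩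
  obtain ⟨Z, hZ⟩ : ∃ Z : ℕ → (ℕ → ℂ) × ((Fin g → ℝ) → ℝ) → ℕ → (Fin (2 * g + 1) → ℕ) → ℂ, Z = fun _ (q : (ℕ → ℂ) × ((Fin g → ℝ) → ℝ)) p m =>
      q.1 p * ((vm p q.2 m * Real.log p : ℝ) : ℂ) := ⟨_, rfl⟩
  have hZ1 : ∀ x, ∀ q ∈ W x, ∀ p ∈ op x, ∀ m, ‖Z x q p m‖ ≤ Real.log x + 1 := by
    intro x q hq p hp' m
    rw [mem_op] at hp'
    have hp1 : (1 : ℝ) ≤ p := by exact_mod_cast hp'.2.1.one_lt.le
    have hpx : (p : ℝ) ≤ x := by exact_mod_cast hp'.1
    have hlp : 0 ≤ Real.log p := Real.log_nonneg hp1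
    have hlx : Real.log p ≤ Real.log x := Real.log_le_log (by linarith) hpx
    rw [hZ]
    simp only
    rw [norm_mul, Complex.norm_real, Real.norm_eq_abs, abs_mul, abs_of_nonneg hlp]
    have h3 := vm_abs p q.2 (hw x q hq).2.1 m
    have h4 := (hw x q hq).1 p
    calc ‖q.1 p‖ * (|vm p q.2 m| * Real.log p) ≤ 1 * (1 * (Real.log x + 1)) := by
          gcongr
          linarith
      _ = _ := by ring
  have h2 := h K s y hrK (by omega) N hN f hf _ W (fun x _ => hW x) Z (by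
      intro x q p m hp'
      rw [hZ]
      simp only
      rw [vm_mod p hp' q.2 m]) (fun x q => Real.sqrt x * (Real.log x + 1)) (by
      intro x hx q _
      have : 0 ≤ Real.log x := Real.log_natCast_nonneg x
      positivity) ?_ ?_ ?_ ?_
    (fun m => ∀ x : ℕ, y ≤ x → (∀ l, (x : ℝ) ≤ Real.exp (c * s l)) → ∀ q ∈ W x, ∀ τ : ℝ, |τ| ≤ (x : ℝ) ^ A →
          ‖partialSum m q.1 q.2 τ x‖ ≤ (x : ℝ) ^ (1 / 2 + δ)) ?_
  · unfold exceptions
    exact h2
  · -- the bound
    intro x hx q hq p hp' m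
    refine (hZ1 x q hq p hp' m).trans ?_
    have hx1 : (1 : ℝ) ≤ x := by exact_mod_cast (by omega : 1 ≤ x)
    have hlx0 : 0 ≤ Real.log x := Real.log_natCast_nonneg x
    have hs1 : 1 ≤ Real.sqrt x := Real.one_le_sqrt.2 hx1
    exact le_mul_of_one_le_left (by linarith) hs1
  · intro x hx q hq p hp'
    rw [mem_op] at hp'
    have e : (fun m : Fin (2 * g + 1) → ℕ => (Z x q p m).re) = fun m => ((q.1 p).re * Real.log p) * vm p q.2 m := by
      funext m
      rw [hZ]
      simp only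
      rw [Complex.re_mul_ofReal]
      ring
    rw [e, mean_mul, mean_vm p hp'.2.1 hp'.2.2 q.2 (hw x q hq).2.2, mul_zero]
  · intro x hx q hq p hp'
    rw [mem_op] at hp'
    have e : (fun m : Fin (2 * g + 1) → ℕ => (Z x q p m).im) = fun m => ((q.1 p).im * Real.log p) * vm p q.2 m := by
      funext m
      rw [hZ]
      simp only
      rw [Complex.im_mul_ofReal]
      ring
    rw [e, mean_mul, mean_vm p hp'.2.1 hp'.2.2 q.2 (hw x q hq).2.2, mul_zero]
  · -- the variance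
    intro x hx q hq
    have hx0 : (0 : ℝ) ≤ x := Nat.cast_nonneg x
    have hlx0 : 0 ≤ Real.log x := Real.log_natCast_nonneg x
    have hone : ∀ p ∈ op x, mean (2 * g + 1) p (fun m => ‖Z x q p m‖ ^ 2) ≤ (Real.log x + 1) ^ 2 := by
      intro p hp'
      have h3 := mean_mono (2 * g + 1) p (fun m => ‖Z x q p m‖ ^ 2) (fun _ => (Real.log x + 1) ^ 2) (fun m => by
        exact pow_le_pow_left₀ (norm_nonneg _) (hZ1 x q hq p hp' m) 2)
      refine h3.trans (le_of_eq ?_)
      rw [mem_op] at hp'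
      exact mean_const (2 * g + 1) p hp'.2.1.one_lt.le _
    refine (sum_le_sum hone).trans ?_
    rw [sum_const, nsmul_eq_mul]
    have hsx : Real.sqrt x * Real.sqrt x = x := Real.mul_self_sqrt hx0
    calc ((op x).card : ℝ) * (Real.log x + 1) ^ 2 ≤ x * (Real.log x + 1) ^ 2 :=
          mul_le_mul_of_nonneg_right (cardop_le x) (by positivity)
      _ = (Real.sqrt x * Real.sqrt x) * (Real.log x + 1) ^ 2 := by rw [hsx]
      _ = _ := by ring
  · -- the conclusion
    intro m hm x hyx hxr q hq τ hτ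
    have hx0 : (0 : ℝ) < x := by exact_mod_cast (by omega : 0 < x)
    have hx1 : (1 : ℝ) ≤ x := by exact_mod_cast (by omega : 1 ≤ x)
    have hlx0 : 0 ≤ Real.log x := Real.log_natCast_nonneg x
    have e1 : partialSum m q.1 q.2 τ x = ∑ p ∈ op x, Z x q p m * hp τ p := by
      unfold partialSum
      rw [← filter_filter, sum_filter]
      apply sum_congr rfl
      intro p _
      rw [hZ]
      simp only
      unfold vm
      split_ifs
      · rfl
      · simp
    have h4 := hm x hyx hxr q hq τ hτ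
    have h6 := hx₁ x (by omega)
    have hpow : (x : ℝ) ^ (1 / 2 + δ) = Real.sqrt x * ((x : ℝ) ^ (δ / 2) * (x : ℝ) ^ (δ / 2)) := by
      rw [← Real.rpow_add hx0, Real.sqrt_eq_rpow, ← Real.rpow_add hx0]
      congr 1
      ring
    rw [e1]
    calc ‖∑ p ∈ op x, Z x q p m * hp τ p‖ ≤ (Real.sqrt x * (Real.log x + 1)) * (x : ℝ) ^ (δ / 2) := h4
      _ = Real.sqrt x * ((1 * (Real.log x + 1)) * (x : ℝ) ^ (δ / 2)) := by ring
      _ ≤ Real.sqrt x * ((x : ℝ) ^ (δ / 2) * (x : ℝ) ^ (δ / 2)) := by gcongr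
      _ = _ := by rw [hpow]

end Pool.Agent.Results.MP_eea520_nt.FewDigitGenusTwo
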