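import Pool.Agent.X287.MatSys
import Pool.Agent.X287.RSys2

/-!
# Continuation of automorphic L-functions from one-sided bounds for finite sums of traces

`G` is any group (in the question `G = ᴸG = GSpin_{2n+1}(ℂ)`, the `L`-group of `GSp_{2n}`), `r : G → GL_m(ℂ)` any
representation, `T` a finite set of primes and `A_p ∈ G`, `p ∉ T`, any family (the Satake classes of an automorphic
representation `π`). The partial `L`-function is

`L(s) = L_T(s, π, r) = ∏_{p ∉ T} det (1 - r(A_p) p^{-s})⁻¹`.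

Let `σ` be a real number such that the eigenvalues of `r(A_p)` have absolute value at most `p^(σ - 1/2)` (so the product
converges absolutely for `Re s > σ + 1/2`; under the conjecture of Ramanujan, for unitary `π`, every `σ ≥ 1/2` is
admissible, in general every sufficiently large `σ`), and assume that the power sums `tr_k(p) = tr r(A_p)^k` of the
eigenvalues are real (so it is for trivial central character, and always for `r ⊕ r'`, `r'` the complex conjugate of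
`r`). For `ρ' > ρ > 1` let

`S_{ρ,ρ'}(Y) = - ∑ w_{1/ρ}(k log p / log Y) tr_k(p) / (k p^{kσ})`,

the FINITE sum over the pairs `(p, k)`, `p ∉ T`, `k ≥ 1`, with `p^k ≤ exp((log Y)^ρ')`, where `w_α` is the smooth
Mittag-Leffler weight `w_α(u) = (2π)⁻¹ ∫ Re (exp(z - u z^α) / z) dt`, `z = 1 + i t`, `w_α(0) = 1`.

The ONLY hypothesis on the continuation is that `L(s)` continues REAL-analytically, i. e. to a holomorphic function `F` on
a neighbourhood of the real interval `(σ, σ + 1/2]`. For `θ ≥ 0` let `H(ρ, θ)` be the domain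
`{s : |arg (s - σ)| < π / (2ρ), Re (s - σ)^ρ > θ}` (a sector for `θ = 0`). It is shown:

1. For all `ρ' > ρ > 1` and `θ ≥ 0` the following are equivalent.
   * `L(s)` has a holomorphic continuation without zeros to the union of `H(ρ, θ)` and `{Re s > σ + 1/2}`;
   * for all `ε > 0`: `S_{ρ,ρ'}(Y) ≤ exp ((θ + ε) (log Y)^ρ)` for all large `Y` (a ONE-SIDED bound);
   * for all `ε > 0`: `|S_{ρ,ρ'}(Y)| ≤ exp ((θ + ε) (log Y)^ρ)` for all large `Y`.
2. For all `κ ≥ 0`: `L(s)` has a holomorphic continuation without zeros to the half plane `Re s > σ + κ` if and only if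
   for all `ρ > 1`, `ε > 0`: `S_{ρ,ρ'}(Y) ≤ exp ((κ^ρ + ε) (log Y)^ρ)` for all large `Y` (`ρ' = t(ρ) > ρ`).
3. Suppose that `F` is holomorphic also at `σ`, of order `μ` and leading coefficient `l`. Let `ρ₀ ≥ 1` and let `(Z)` be
   the statement that `L(s)` has a holomorphic continuation without zeros to the union of the sector
   `|arg (s - σ)| < π / (2 ρ₀)` (the half plane `Re s > σ` for `ρ₀ = 1`) and `{Re s > σ + 1/2}`.
   * For all real `x`: `(Z)` and `μ ≤ x` if and only if `limsup S_{ρ,ρ'}(Y) / log log Y ≤ x` for all `ρ > ρ₀`.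
   * For all `j ∈ ℕ` and real `B > 0`: `(Z)`, `μ = j` and `l = B` if and only if
     `S_{ρ,ρ'}(Y) - j log log Y → j γ / ρ - log B` for all `ρ > ρ₀` (`γ` the constant of Euler).

For the case `j = 0`: `(Z)` and `L(σ) = B` if and only if the finite products `exp (- S_{ρ,ρ'}(Y))` converge to `B`.

Proof. With `Y = exp(y^{1/ρ})` the sum is, up to `o(1)`, a function `f(y)` whose Laplace transform is
`- (d/dv) (g(v)/v)`, `g(v) = - log L(σ + v^{1/ρ})` for large `Re v`. By Landau's theorem an upper bound for `f` first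
excludes real zeros and then all the singularities in `Re v > θ`; see `Pool.Agent.X287.RSect`, `Level`, `Level2`,
`Level3`, `RSys2`, `Mat`. The asymptotic theory of the weights is in `Pool.Agent.TH942.SL`.
-/

set_option autoImplicit false

open Filter Topology

namespace Pool.Agent.Results.MP_eea520_nt.OneSidedContinuation

variable {T : Finset Nat.Primes} {m : ℕ}

/-- The matrices `M_p = r(A_p)`, `p ∉ T`. -/
def mat {G : Type} [Group G] (r : G →* Matrix.GeneralLinearGroup (Fin m) ℂ)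
    (A : {p : Nat.Primes // p ∉ T} → G) (p : {p : Nat.Primes // p ∉ T}) :
    Matrix (Fin m) (Fin m) ℂ := (r (A p)).val

/-- The power sum of the eigenvalues (with multiplicities): the trace of `M^k`. -/
noncomputable def powerSum (M : Matrix (Fin m) (Fin m) ℂ) (k : ℕ) : ℂ :=
  (M.charpoly.roots.map fun z => z ^ k).sum

/-- `p` as a natural number. -/
def nat (p : {p : Nat.Primes // p ∉ T}) : ℕ := p.1

/-- The Mittag-Leffler weight `w_α(u) = (2π)⁻¹ ∫ Re (exp (z - u z^α) / z) dt`, `z = 1 + it`. -/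
noncomputable def weight (α u : ℝ) : ℝ :=
  (2 * Real.pi)⁻¹ * ∫ t : ℝ, (Complex.exp ((1 + t * Complex.I) -
    u * (1 + t * Complex.I) ^ (α : ℂ)) / (1 + t * Complex.I)).re

/-- The pairs `(p, k)`, `p ∉ T`, `k = x.2 + 1`, with `p ^ k ≤ exp((log Y)^ρ')`. -/
def pairs (T : Finset Nat.Primes) (ρ' Y : ℝ) : Set ({p : Nat.Primes // p ∉ T} × ℕ) :=
  {x | (nat x.1 : ℝ) ^ (x.2 + 1) ≤ Real.exp (Real.log Y ^ ρ')}

/-- `S_{ρ,ρ'}(Y)`: minus the sum over the finite set `pairs`, with `k = x.2 + 1`. -/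
noncomputable def S (M : {p : Nat.Primes // p ∉ T} → Matrix (Fin m) (Fin m) ℂ) (σ ρ ρ' Y : ℝ) : ℝ :=
  -∑ᶠ x ∈ pairs T ρ' Y, weight ρ⁻¹ (((x.2 : ℝ) + 1) * Real.log (nat x.1) / Real.log Y) *
    ((powerSum (M x.1) (x.2 + 1)).re / (((x.2 : ℝ) + 1) * (nat x.1 : ℝ) ^ (((x.2 : ℝ) + 1) * σ)))

/-- `F` is the `L`-function `∏ det (1 - M_p p^{-s})⁻¹` for `Re s > σ + 1/2`. -/
def IsLSeries (M : {p : Nat.Primes // p ∉ T} → Matrix (Fin m) (Fin m) ℂ) (σ : ℝ) (F : ℂ → ℂ) :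
    Prop := ∀ s : ℂ, σ + 1 / 2 < s.re →
  HasProd (fun p : {p : Nat.Primes // p ∉ T} => ((1 - ((nat p : ℂ) ^ (-s)) • M p).det)⁻¹) (F s)

/-- `s` lies in `H(ρ, θ)`: `|arg (s - σ)| < π / (2ρ)`, `s ≠ σ`, and `Re (s - σ)^ρ > θ`. -/
def InH (σ ρ θ : ℝ) (s : ℂ) : Prop :=
  s ≠ σ ∧ |Complex.arg (s - σ)| < Real.pi / (2 * ρ) ∧ θ < ((s - σ) ^ (ρ : ℂ)).re

/-- `s` lies in the sector `|arg (s - σ)| < π / (2ρ)`, `s ≠ σ`; the half plane `Re s > σ` for `ρ = 1`. -/
def InSector (σ ρ : ℝ) (s : ℂ) : Prop := s ≠ σ ∧ |Complex.arg (s - σ)| < Real.pi / (2 * ρ)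

/-- The `L`-function has a holomorphic continuation without zeros to the union of the set `{s | Q s}` and the
half plane `Re s > σ + 1/2`. -/
def ZeroFree (M : {p : Nat.Primes // p ∉ T} → Matrix (Fin m) (Fin m) ℂ) (σ : ℝ) (Q : ℂ → Prop) :
    Prop := ∃ F : ℂ → ℂ,
  IsLSeries M σ F ∧ ∀ s : ℂ, Q s ∨ σ + 1 / 2 < s.re → DifferentiableAt ℂ F s ∧ F s ≠ 0

/-- `F` has the order `μ` and the leading coefficient `l` at `s = σ`. -/
def HasOrder (σ : ℝ) (F : ℂ → ℂ) (μ : ℕ) (l : ℂ) : Prop :=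
  l ≠ 0 ∧ Tendsto (fun s : ℂ => F s / (s - σ) ^ μ) (𝓝[≠] (σ : ℂ)) (𝓝 l)

open Pool.Agent.X287.Kit in
theorem S_eq (M : {p : Nat.Primes // p ∉ T} → Matrix (Fin m) (Fin m) ℂ) (σ ρ ρ' Y : ℝ) :
    S M σ ρ ρ' Y = -Pool.Agent.TH942.ES.StE (pS fun p => p ∉ T)
      (al (pS fun p => p ∉ T) (mE M) σ) ρ ρ' Y := by
  unfold S Pool.Agent.TH942.ES.StE
  congr 1
  refine finsum_congr fun x => ?_
  refine finsum_congr_Prop rfl fun _ => ?_
  have e1 : weight = Pool.Agent.TH942.SL.wml := rfl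
  rw [e1]
  congr 1
  exact (mat_cP (A := M) (σ := σ) x).symm

open Pool.Agent.X287.Kit in
/-- **Continuation of automorphic `L`-functions from one-sided bounds for finite sums.** -/
theorem result (T : Finset Nat.Primes) (G : Type) [Group G] (m : ℕ)
    (r : G →* Matrix.GeneralLinearGroup (Fin m) ℂ) (A : {p : Nat.Primes // p ∉ T} → G) (σ : ℝ)
    (hA : ∀ p, ∀ z ∈ (mat r A p).charpoly.roots, ‖z‖ ≤ (nat p : ℝ) ^ (σ - 1 / 2))
    (hreal : ∀ p k, (powerSum (mat r A p) k).im = 0)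
    (F : ℂ → ℂ) (hF : IsLSeries (mat r A) σ F)
    (hr : ∀ x : ℝ, σ < x → x ≤ σ + 1 / 2 → AnalyticAt ℂ F (x : ℂ)) :
    (∀ ρ' Y : ℝ, (pairs T ρ' Y).Finite) ∧
    -- 1. the domains `H(ρ, θ)`
    (∀ ρ ρ' θ : ℝ, 1 < ρ → ρ < ρ' → 0 ≤ θ →
      (ZeroFree (mat r A) σ (InH σ ρ θ) ↔ ∀ ε : ℝ, 0 < ε → ∀ᶠ Y : ℝ in atTop,
        S (mat r A) σ ρ ρ' Y ≤ Real.exp ((θ + ε) * Real.log Y ^ ρ)) ∧
      (ZeroFree (mat r A) σ (InH σ ρ θ) ↔ ∀ ε : ℝ, 0 < ε → ∀ᶠ Y : ℝ in atTop,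
        |S (mat r A) σ ρ ρ' Y| ≤ Real.exp ((θ + ε) * Real.log Y ^ ρ))) ∧
    ∀ t : ℝ → ℝ, (∀ ρ, ρ < t ρ) →
    -- 2. half planes
    (∀ κ : ℝ, 0 ≤ κ → (ZeroFree (mat r A) σ (fun s => σ + κ < s.re) ↔
      ∀ ρ : ℝ, 1 < ρ → ∀ ε : ℝ, 0 < ε → ∀ᶠ Y : ℝ in atTop,
        S (mat r A) σ ρ (t ρ) Y ≤ Real.exp ((κ ^ ρ + ε) * Real.log Y ^ ρ))) ∧
    -- 3. order and leading coefficient at `σ`
    (AnalyticAt ℂ F (σ : ℂ) → ∃ (μ : ℕ) (l : ℂ), HasOrder σ F μ l ∧ ∀ ρ₀ : ℝ, 1 ≤ ρ₀ →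
      (∀ x : ℝ, (ZeroFree (mat r A) σ (InSector σ ρ₀) ∧ (μ : ℝ) ≤ x) ↔
        ∀ ρ : ℝ, ρ₀ < ρ → ∀ ε : ℝ, 0 < ε → ∀ᶠ Y : ℝ in atTop,
          S (mat r A) σ ρ (t ρ) Y ≤ (x + ε) * Real.log (Real.log Y)) ∧
      ∀ (j : ℕ) (B : ℝ), 0 < B → ((ZeroFree (mat r A) σ (InSector σ ρ₀) ∧ μ = j ∧ l = B) ↔
        ∀ ρ : ℝ, ρ₀ < ρ → Tendsto (fun Y : ℝ =>
          S (mat r A) σ ρ (t ρ) Y - j * Real.log (Real.log Y)) atTop
            (𝓝 (j * Real.eulerMascheroniConstant / ρ - Real.log B)))) := by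
  have E := mat_sys (A := mat r A) (σ := σ) hreal hA
  have hre := mat_real (A := mat r A) (σ := σ) hreal
  have hl := mat_loc (A := mat r A) (σ := σ) (c := (σ : ℂ)) rfl
  have H := rcon_open E hl rfl rfl hF hr
  refine ⟨fun ρ' Y => E.finS _, fun ρ ρ' θ h1 h2 h3 => ?_, fun t ht => ⟨fun κ hκ => ?_, fun h0 => ?_⟩⟩
  · have h4 := zh_iff E hl rfl rfl ρ θ
    obtain ⟨h5, h6⟩ := Pool.Agent.X287.RS.level_iff E hre H h1 h2 h3
    rw [← h4] at h5 h6
    simp only [S_eq, abs_neg]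
    exact ⟨h5, h6⟩
  · have h4 := zp_iff E hl rfl rfl κ
    have h5 := Pool.Agent.X287.RS.half_iff E hre H hκ ht
    rw [← h4] at h5
    simp only [S_eq]
    exact h5
  · have h1 : AnalyticAt ℂ (fun s => F (σ + s)) 0 := by
      refine AnalyticAt.comp (f := fun s : ℂ => (σ : ℂ) + s) ?_ (by fun_prop)
      rwa [add_zero]
    obtain ⟨μ, l, hA'⟩ := Pool.Agent.X287.RS.exists_lead E H h1
    refine ⟨μ, l, (lead_iff h1 μ l).2 hA', fun ρ₀ h => ⟨fun x => ?_, fun j B hB => ?_⟩⟩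
    · have h2 := Pool.Agent.X287.RS.order_one E hre H hA' h ht x
      rw [← zf_iff E hl rfl rfl ρ₀] at h2
      simp only [S_eq]
      exact h2.symm
    · have hQ : Tendsto (fun Y : ℝ => (j : ℝ) * Real.log (Real.log Y) -
          j * Real.log (Real.log Y)) atTop (𝓝 0) := by
        simp only [sub_self]
        exact tendsto_const_nhds
      have h2 := Pool.Agent.X287.RS.coeff_eq E hre H hA' h ht hQ hB
      rw [← zf_iff E hl rfl rfl ρ₀] at h2
      have h3 : ∀ ρ : ℝ, -0 - Real.log B + j * Real.eulerMascheroniConstant / ρ =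
          j * Real.eulerMascheroniConstant / ρ - Real.log B := fun ρ => by ring
      simp only [h3] at h2
      simp only [S_eq]
      exact h2

end Pool.Agent.Results.MP_eea520_nt.OneSidedContinuation
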