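import Pool.Agent.X280.HY.Fin

/-!
# L-functions of `GSp(2n)` for arbitrary representations of the L-group: almost all twists

Let `π` be any automorphic representation of `GSp(2n)`, unramified outside `S`, and `ρ` any
representation of the L-group, of degree `r`.  In general nothing is known about a continuation of
`L_S(s, π, ρ)`, nor about its size near the edge of the half plane of absolute convergence, except for
the trivial bounds.  We show that for almost all twists by unitary characters `χ |·|^{it}`, `χ` a
Dirichlet character modulo `q`, the L-function and its inverse are bounded right up to the distance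
`1 / log (q T)` from the edge, with a double exponential decay of the measure of the exceptional set:
`|L|^{±1} > (C log K)^r` happens with probability at most `C e^{-K}`, for all `K` up to
`log (q T) / (C log log (q T))`; for this value of `K` the bound `(C log log (q T))^{± r}` has the
strength of what one gets from the Riemann hypothesis.  The constant `C` is absolute.

`α p j`, `j < r`, are the eigenvalues of `ρ(A_p)`, `A_p` the Satake class, for `p ∉ S`, and `0` for
`p ∈ S`; `c` is any real number with `|α p j| ≤ p^c` (by Langlands there is such a `c`; `c = 0` if `π` is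
tempered), so that `Re s > 1 + c` is the half plane of absolute convergence.  `Ltw χ α s` is the twisted
Euler product `∏_p ∏_j (1 - α_j(p) χ(p) p^{-s})⁻¹`.  If the scalars act in `ρ` by the identity character, as in
the spin representation, this is `L_S(s, π ⊗ (χ ∘ λ), ρ)`, `λ` the similitude, and
`L_S(s + it, π, ρ) = L_S(s, π ⊗ |λ|^{it}, ρ)`.
-/

set_option autoImplicit false

namespace Pool.Agent.Results.MP_eea520_nt.TwistsNearTheEdge

open MeasureTheory Pool.Agent.X280.HY

/-- There is an absolute constant `C` with the following property.  Let `α` be a system with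
`|α p j| ≤ p^c`, `j < r`, let `q ≥ 1`, `T ≥ 1`, let `t₀` be real and `K ≥ 3` with
`C K log K ≤ log (q T)`.  Then, for all characters `χ` modulo `q`, the Euler product of `L(s, α × χ)`
converges for `Re s > 1 + c`, and the measure of the set of pairs `(χ, t)`, `|t - t₀| ≤ T`, for which
there is any `σ ≥ 1 + c + 1 / log (q T)` violating
`(C log K)^{-r} ≤ |L(σ + it, α × χ)| ≤ (C log K)^r` is at most `C φ(q) T e^{-K}`. -/
theorem result : ∃ C : ℝ, 1 ≤ C ∧ ∀ (r : ℕ) (c : ℝ) (α : ℕ → Fin r → ℂ),
    (∀ p : ℕ, p.Prime → ∀ j, ‖α p j‖ ≤ (p : ℝ) ^ c) →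
    ∀ (q : ℕ) [NeZero q] (T t₀ K : ℝ), 1 ≤ T → 3 ≤ K → C * (K * Real.log K) ≤ Real.log (q * T) →
    (∀ (χ : DirichletCharacter ℂ q) (s : ℂ), 1 + c < s.re → Multipliable fun p : Nat.Primes =>
      ∏ j, (1 - α p j * χ ((p : ℕ) : ZMod q) * ((p : ℕ) : ℂ) ^ (-s))⁻¹) ∧
    ∑ χ : DirichletCharacter ℂ q, volume {t : ℝ | |t - t₀| ≤ T ∧ ∃ σ : ℝ,
        1 + c + 1 / Real.log (q * T) ≤ σ ∧
        ¬ (((C * Real.log K) ^ r)⁻¹ ≤ ‖Ltw χ α (σ + t * Complex.I)‖ ∧
          ‖Ltw χ α (σ + t * Complex.I)‖ ≤ (C * Real.log K) ^ r)} ≤
      ENNReal.ofReal (C * q.totient * T * Real.exp (-K)) := by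
  refine ⟨CH, ?_, ?_⟩
  · unfold CH
    have h1 := Real.exp_pos (C5 + 2)
    have h2 := C6_nonneg
    linarith
  · intro r c α hα q _ T t₀ K hT hK hKX
    refine ⟨fun χ s hs => ?_, near_edge hα q hT t₀ hK hKX⟩
    have h1 := (Ltw_eq (t₀ := 0) (u := s.im) hα χ (ε := s.re - 1 - c) (by linarith)).multipliable
    refine h1.congr fun p => ?_
    refine Finset.prod_congr rfl fun j _ => ?_
    have h2 : (1 : ℂ) + c + ((s.re - 1 - c : ℝ) : ℂ) + (((0 : ℝ) : ℂ) + (s.im : ℂ)) * Complex.I = s := by
      apply Complex.ext <;> simp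
    rw [h2]

end Pool.Agent.Results.MP_eea520_nt.TwistsNearTheEdge
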